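import Pool.Agent.KS6_76.FPH.All

/-!
# Farthest points on closed curves of length `π` in an arbitrary inner product space

Let `C` be a closed curve of length `π` in a real inner product space `H` (of any dimension, finite or
infinite, complete or not) and for `x ∈ C` let `δ x` be the distance from `x` to a farthest point of `C`.
Let `m` be the minimum and `M` the maximum of `δ` over `C`. Then `m + ((M - m) / 4) ^ 5 ≤ 1`, and `m = 1` if
and only if `C` is the relative boundary of a plane convex body of constant width `1`.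

The statement for `H = ℝ^d` is `Pool.Graph.R_seed8.Results.MP_30679c_gt.FarthestPoint`; its planar parts are
used here, and the parts in which the ambient space enters are carried out in `H`:
* the polygon inscribed in `C` is embedded isometrically in a space `ℝ^N` (`N` depends on the polygon), where
  the majorization by plane polygons applies; the limit of the plane polygons carries a map onto `C` which does
  not increase distances;
* if the perimeter of the limit is `π` then this map gives a curve on the unit sphere of `H` of speed at most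
  one from a point to its antipode, hence a great semicircle, so all the unit vectors of a plane are
  differences of two points of `C`, and by the Crofton inequality `C` is a plane curve of constant width.
-/

set_option autoImplicit false

namespace Pool.Agent.Results.MP_30679c_gt.FarthestPointInner

open Set

/-- `δ x`: the supremum of the distances from `x` to the points of `C` (attained for compact `C`) -/
noncomputable def farthest {H : Type*} [NormedAddCommGroup H] [InnerProductSpace ℝ H] (C : Set H)
    (x : H) : ℝ := sSup ((fun y => dist x y) '' C)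

/-- `C` is the relative boundary of a plane convex body of constant width one: the image of the boundary of
a compact convex set `K` of the plane under an isometric affine map `ι` from the plane to `H`, where the
width `sup ⟨v, x⟩ - inf ⟨v, x⟩` (`x ∈ K`) is `1` for every unit vector `v` -/
def ConstantWidthBoundary {H : Type*} [NormedAddCommGroup H] [InnerProductSpace ℝ H] (C : Set H) : Prop :=
  ∃ (ι : EuclideanSpace ℝ (Fin 2) →ᵃⁱ[ℝ] H)
    (K : Set (EuclideanSpace ℝ (Fin 2))), IsCompact K ∧ Convex ℝ K ∧
    (∀ v : EuclideanSpace ℝ (Fin 2), ‖v‖ = 1 →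
      sSup ((fun x => inner ℝ v x) '' K) - sInf ((fun x => inner ℝ v x) '' K) = (1 : ℝ)) ∧
    C = ι '' frontier K

/-- `C = γ ([0, 1])` is a closed curve of length `π` in the inner product space `H` -/
theorem result (H : Type*) [NormedAddCommGroup H] [InnerProductSpace ℝ H] (γ : ℝ → H)
    (hγ : ContinuousOn γ (Icc 0 1))
    (hclosed : γ 0 = γ 1) (hlen : eVariationOn γ (Icc 0 1) = ENNReal.ofReal Real.pi) :
    ∃ m M : ℝ, IsLeast (farthest (γ '' Icc 0 1) '' (γ '' Icc 0 1)) m ∧
      IsGreatest (farthest (γ '' Icc 0 1) '' (γ '' Icc 0 1)) M ∧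
      m + ((M - m) / 4) ^ 5 ≤ 1 ∧
      (m = 1 ↔ ConstantWidthBoundary (γ '' Icc 0 1)) := by
  obtain ⟨h1, h2⟩ := Pool.Agent.KS676.FPH.main H γ hγ hclosed hlen
  have hC : IsCompact (γ '' Icc 0 1) := isCompact_Icc.image_of_continuousOn hγ
  have hne : (γ '' Icc 0 1).Nonempty := ⟨γ 0, 0, by simp, rfl⟩
  have hle : ∀ x, ∀ y ∈ γ '' Icc 0 1, dist x y ≤ farthest (γ '' Icc 0 1) x := by
    intro x y hy
    exact le_csSup (hC.image (continuous_const.dist continuous_id)).bddAbove ⟨y, hy, rfl⟩
  have hex : ∀ x, ∃ y ∈ γ '' Icc 0 1, farthest (γ '' Icc 0 1) x = dist x y := by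
    intro x
    obtain ⟨y, hy, h⟩ := hC.exists_sSup_image_eq hne
      (f := fun y => dist x y) (continuous_const.dist continuous_id).continuousOn
    exact ⟨y, hy, h⟩
  have hcont : Continuous (farthest (γ '' Icc 0 1)) := by
    apply LipschitzWith.continuous (K := 1)
    apply LipschitzWith.of_le_add
    intro x x'
    obtain ⟨y, hy, h⟩ := hex x
    rw [h]
    have h3 := hle x' y hy
    have h4 := dist_triangle x x' y
    linarith
  obtain ⟨x0, hx0, hmin⟩ := hC.exists_isMinOn hne hcont.continuousOn
  have hmin2 : ∀ x ∈ γ '' Icc 0 1, farthest (γ '' Icc 0 1) x0 ≤ farthest (γ '' Icc 0 1) x :=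
    fun x hx => hmin hx
  have hm : farthest (γ '' Icc 0 1) x0 ≤ 1 := by
    obtain ⟨x, hx, h3⟩ := h1
    obtain ⟨y, hy, h4⟩ := hex x
    have h5 := hmin2 x hx
    rw [h4] at h5
    exact h5.trans (h3 y hy)
  obtain ⟨x1, hx1, hmax⟩ := hC.exists_isMaxOn hne hcont.continuousOn
  refine ⟨farthest (γ '' Icc 0 1) x0, farthest (γ '' Icc 0 1) x1, ⟨⟨x0, hx0, rfl⟩, ?_⟩,
    ⟨⟨x1, hx1, rfl⟩, ?_⟩, ?_, ?_⟩
  · rintro _ ⟨x, hx, rfl⟩
    exact hmin2 x hx
  · rintro _ ⟨x, hx, rfl⟩
    exact hmax hx
  · obtain ⟨y1, hy1, h3⟩ := hex x1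
    have h4 : farthest (γ '' Icc 0 1) x0 ≤ dist x1 y1 := by
      rw [← h3]
      exact hmin2 x1 hx1
    have h0 : 0 ≤ farthest (γ '' Icc 0 1) x0 := dist_nonneg.trans (hle x0 x0 hx0)
    rw [h3]
    exact Pool.Agent.KS676.FPH.main2 H γ hγ hclosed hlen _ h0 hm (fun x hx => by
      obtain ⟨y, hy, h5⟩ := hex x
      exact ⟨y, hy, h5 ▸ hmin2 x hx⟩) x1 hx1 y1 hy1 h4
  · have h3 : (farthest (γ '' Icc 0 1) x0 = 1) ↔
        ∀ x ∈ γ '' Icc 0 1, ∃ y ∈ γ '' Icc 0 1, 1 ≤ dist x y := by
      constructor
      · intro h x hx
        obtain ⟨y, hy, h4⟩ := hex x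
        exact ⟨y, hy, h4 ▸ h.symm.le.trans (hmin2 x hx)⟩
      · intro h
        apply le_antisymm hm
        obtain ⟨y, hy, h4⟩ := h x0 hx0
        exact h4.trans (hle x0 y hy)
    rw [h3]
    exact h2

end Pool.Agent.Results.MP_30679c_gt.FarthestPointInner
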